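import Pool.Agent.Run7.h243.U.Up4

/-! Heawood's upper bound for graphs on a surface. -/

namespace Run7.h243.Up

open Run7.B243 Equiv

/-- Heawood's upper bound for the graphs that embed in the orientable surface of genus `g` -/
theorem colourable_graph (g m n : ℕ) (hg : 1 ≤ g) (hn : 0 < n)
    (hnm : ((n : ℤ) + 1) * (6 * m - n) < 6 * (2 - 2 * (g : ℤ)))
    (M : CellMap) (hM : M.On (Surface.S g)) {V C : Type} [Finite V] (H : SimpleGraph V)
    (f : V → M.Face) (hf : Function.Injective f)
    (hH : ∀ u v, H.Adj u v → ∃ x, M.face x = f u ∧ M.face (M.r2 x) = f v)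
    (country : V → C) (hcount : ∀ c : C, Nat.card {v : V // country v = c} ≤ m) :
    ∃ col : C → Fin n, ∀ u v, H.Adj u v → country u ≠ country v →
      col (country u) ≠ col (country v) := by
  classical
  obtain ⟨hor, heul⟩ := hM
  obtain ⟨c, hc⟩ := hor.mpr trivial
  have := M.fin
  have : Finite M.Face := Finite.of_surjective (Quot.mk _) Quot.mk_surjective
  have : Fintype M.Face := Fintype.ofFinite _
  have : Fintype V := Fintype.ofFinite _
  have : Fintype {x : M.Flag // c x = true} := Fintype.ofFinite _
  obtain ⟨adj, hadj⟩ : ∃ adj : C → C → Prop, ∀ a b, adj a b ↔ (a ≠ b ∧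
      ∃ u v, H.Adj u v ∧ country u = a ∧ country v = b) := ⟨_, fun _ _ => Iff.rfl⟩
  have hsymm : ∀ a b, adj a b → adj b a := by
    intro a b h
    rw [hadj] at h ⊢
    obtain ⟨h1, u, v, h2, h3, h4⟩ := h
    exact ⟨h1.symm, v, u, h2.symm, h4, h3⟩
  have hirr : ∀ a, ¬ adj a a := by
    intro a h
    rw [hadj] at h
    exact h.1 rfl
  obtain ⟨lab, hlab, hlab'⟩ : ∃ lab : M.Face → Option C, (∀ v, lab (f v) = some (country v)) ∧
      ∀ F a, lab F = some a → ∃ v, f v = F ∧ country v = a := by
    refine ⟨fun F => if h : ∃ v, f v = F then some (country h.choose) else none, ?_, ?_⟩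
    · intro v
      have h : ∃ w, f w = f v := ⟨v, rfl⟩
      show dite _ _ _ = _
      rw [dif_pos h, hf h.choose_spec]
    · intro F a h
      by_cases hF : ∃ v, f v = F
      · simp only [dif_pos hF, Option.some.injEq] at h
        exact ⟨hF.choose, hF.choose_spec, h⟩
      · simp only [dif_neg hF] at h
        exact absurd h (by simp)
  have hdeg : ∀ W : Finset C, W.Nonempty → ∃ a ∈ W, (W.filter (fun b => adj a b)).card < n := by
    intro W hW
    by_contra hcon
    push Not at hcon
    obtain ⟨a0, ha0⟩ := hW
    -- the number of vertices in `W`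
    obtain ⟨T, hTdef⟩ : ∃ T : Finset V, T = Finset.univ.filter (fun v => country v ∈ W) :=
      ⟨_, rfl⟩
    have hTcard : T.card ≤ W.card * m := by
      have h1 : T.card = ∑ a ∈ W, (T.filter (fun v => country v = a)).card := by
        apply Finset.card_eq_sum_card_fiberwise
        intro v hv
        rw [hTdef] at hv
        simpa using hv
      rw [h1, ← smul_eq_mul]
      apply Finset.sum_le_card_nsmul
      intro a _
      have h2 := hcount a
      rw [Nat.card_eq_fintype_card, Fintype.card_subtype] at h2
      refine le_trans (Finset.card_le_card ?_) h2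
      intro v hv
      rw [Finset.mem_filter] at hv ⊢
      exact ⟨Finset.mem_univ _, hv.2⟩
    obtain ⟨S, hSdef⟩ : ∃ S : Finset M.Face, S = T.image f := ⟨_, rfl⟩
    have hScard : S.card ≤ W.card * m := by
      rw [hSdef]
      exact Finset.card_image_le.trans hTcard
    have hb := pairs_bound (phi M c hc) (alp M c hc) (alp_inv M c hc) (alp_ne M c hc)
      (orb_one M c hc) (fun x => M.face x.1)
      (by
        intro x
        show M.face (M.r0 (M.r1 x.1)) = _
        rw [face_r0, face_r1]) (face_cl M c hc) lab (W.image some) S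
      (by
        intro F hF
        rw [Finset.mem_image] at hF
        obtain ⟨a, ha, haF⟩ := hF
        obtain ⟨v, hv, hva⟩ := hlab' F a haF.symm
        rw [hSdef, Finset.mem_image]
        refine ⟨v, ?_, hv⟩
        rw [hTdef]
        simpa [hva] using ha)
      (((W ×ˢ W).filter (fun p => adj p.1 p.2)).image (fun p => (some p.1, some p.2)))
      (by
        intro q hq
        rw [Finset.mem_image] at hq
        obtain ⟨p, hp, rfl⟩ := hq
        rw [Finset.mem_filter, Finset.mem_product] at hp
        obtain ⟨⟨h1, h2⟩, h3⟩ := hp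
        rw [hadj] at h3
        obtain ⟨h3, u, v, huv, h4, h5⟩ := h3
        obtain ⟨x, hxu, hxv⟩ := hH u v huv
        refine ⟨Finset.mem_image_of_mem _ h1, Finset.mem_image_of_mem _ h2,
          fun h => h3 (Option.some.inj h), ?_⟩
        have k1 : lab (M.face x) = some p.1 := by rw [hxu, hlab, h4]
        have k2 : lab (M.face (M.r2 x)) = some p.2 := by rw [hxv, hlab, h5]
        by_cases hx : c x = true
        · refine ⟨⟨x, hx⟩, k1, ?_⟩
          show lab (M.face (M.r2 (M.r0 x))) = _
          rw [← M.comm, face_r0]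
          exact k2
        · refine ⟨⟨M.r0 x, by rw [(hc x).1]; simpa using hx⟩, ?_, ?_⟩
          · show lab (M.face (M.r0 x)) = _
            rw [face_r0]; exact k1
          · show lab (M.face (M.r2 (M.r0 (M.r0 x)))) = _
            rw [M.r0_inv]; exact k2) g hg
      (by
        have := euler_eq M c hc
        rw [heul] at this
        simpa [Surface.euler] using this.symm)
    rw [Finset.card_image_of_injective _ (by
      intro p q hpq
      simp only [Prod.mk.injEq, Option.some.injEq] at hpq
      exact Prod.ext hpq.1 hpq.2)] at hb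
    have hpairs : W.card * n ≤ ((W ×ˢ W).filter (fun p => adj p.1 p.2)).card := by
      rw [Finset.card_filter, Finset.sum_product, ← smul_eq_mul]
      apply Finset.card_nsmul_le_sum
      intro a ha
      have := hcon a ha
      rw [Finset.card_filter] at this
      exact this
    have hk : n + 1 ≤ W.card := by
      have h1 := hcon a0 ha0
      have h2 : W.filter (fun b => adj a0 b) ⊆ W.erase a0 := by
        intro b hb
        rw [Finset.mem_filter] at hb
        rw [Finset.mem_erase]
        refine ⟨?_, hb.1⟩
        intro h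
        rw [h] at hb
        exact hirr _ hb.2
      have h3 := Finset.card_le_card h2
      rw [Finset.card_erase_of_mem ha0] at h3
      have h4 : 0 < W.card := Finset.card_pos.mpr ⟨a0, ha0⟩
      omega
    obtain ⟨k, hkdef⟩ : ∃ k : ℤ, k = W.card := ⟨_, rfl⟩
    have e1 : (W.card : ℤ) * n ≤ ((W ×ˢ W).filter (fun p => adj p.1 p.2)).card := by
      exact_mod_cast hpairs
    have e2 : (S.card : ℤ) ≤ W.card * m := by exact_mod_cast hScard
    have e3 : (n : ℤ) + 1 ≤ W.card := by exact_mod_cast hk
    rw [← hkdef] at e1 e2 e3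
    have e4 : k * n ≤ 6 * (k * m) + 12 * ((g : ℤ) - 1) := by linarith
    have hg' : (1 : ℤ) ≤ g := by exact_mod_cast hg
    have e5 : 6 * (m : ℤ) - n < 0 := by
      by_contra hcc
      push Not at hcc
      have : 0 ≤ ((n : ℤ) + 1) * (6 * m - n) := mul_nonneg (by positivity) hcc
      linarith
    nlinarith
  obtain ⟨col, hcol⟩ := colour_deg adj hsymm hirr n hn hdeg _ (Finset.univ.image country) rfl
  refine ⟨col, ?_⟩
  intro u v huv hne
  exact hcol _ (Finset.mem_image_of_mem _ (Finset.mem_univ _)) _
    (Finset.mem_image_of_mem _ (Finset.mem_univ _)) ((hadj _ _).mpr ⟨hne, u, v, huv, rfl, rfl⟩)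

end Run7.h243.Up
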