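import Pool.Agent.Run7.h243.Base.Orient

/-! Isolating darts does not increase the genus. -/

namespace Run7.h243.Up

open Run7.B243 Equiv

variable {D : Type}

/-- the relation generated by two permutations -/
def rel (f α : Perm D) (a b : D) : Prop := b = f a ∨ b = α a

/-- class of an element under two permutations -/
def cls (f α : Perm D) (a : D) : Quot (rel f α) := Quot.mk _ a

theorem cls_f (f α : Perm D) (a : D) : cls f α (f a) = cls f α a :=
  (Quot.sound (r := rel f α) (Or.inl rfl)).symm

theorem cls_a (f α : Perm D) (a : D) : cls f α (α a) = cls f α a :=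
  (Quot.sound (r := rel f α) (Or.inr rfl)).symm

/-- number of common orbits -/
noncomputable def orb (f α : Perm D) : ℕ := Nat.card (Quot (rel f α))

instance [Finite D] (f α : Perm D) : Finite (Quot (rel f α)) :=
  Finite.of_surjective (Quot.mk _) Quot.mk_surjective

theorem orb_le_of [Finite D] (g φ α : Perm D) (h : ∀ x, cls g α (φ x) = cls g α x) :
    orb g α ≤ orb φ α := by
  unfold orb
  refine Nat.card_le_card_of_surjective
    (Quot.lift (fun x => cls g α x) (by
      rintro x y (h' | h')
      · subst h'; exact (h x).symm
      · subst h'; exact (cls_a g α x).symm) : Quot (rel φ α) → Quot (rel g α)) ?_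
  intro q
  induction q using Quot.ind with
  | mk x => exact ⟨cls φ α x, rfl⟩

variable [DecidableEq D]

theorem orb_le_succ [Finite D] (g α : Perm D) (a c : D) :
    orb g α ≤ orb (g * swap a c) α + 1 := by
  classical
  unfold orb
  rw [← Finite.card_option]
  let K : Quot (rel (g * swap a c) α) → Quot (rel g α) :=
    Quot.lift (fun x => if cls g α x = cls g α c then cls g α a else cls g α x) (by
      rintro x y (h | h)
      · subst h
        rw [Perm.mul_apply, cls_f]
        by_cases hxa : x = a
        · subst hxa
          rw [swap_apply_left]
          by_cases h : cls g α x = cls g α c <;> simp [h]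
        · by_cases hxb : x = c
          · subst hxb
            rw [swap_apply_right]
            by_cases h : cls g α a = cls g α x <;> simp [h]
          · rw [swap_apply_of_ne_of_ne hxa hxb]
      · subst h
        rw [cls_a])
  refine Nat.card_le_card_of_surjective
    (fun o => match o with
      | none => cls g α c
      | some q => K q) ?_
  intro q
  induction q using Quot.ind with
  | mk x =>
    by_cases h : cls g α x = cls g α c
    · exact ⟨none, h.symm⟩
    · refine ⟨some (cls _ α x), ?_⟩
      show (if cls g α x = cls g α c then cls g α a else cls g α x) = _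
      rw [if_neg h]
      rfl

/-- twice the genus -/
noncomputable def gam (f α : Perm D) : ℤ :=
  2 * (orb f α : ℤ) - cyc f + cyc α - cyc (α * f)

/-- cutting `a` out of its cycle -/
def cut (f : Perm D) (a : D) : Perm D := f * swap a (f⁻¹ a)

theorem cut_self (f : Perm D) (a : D) : cut f a a = a := by
  unfold cut
  rw [Perm.mul_apply, swap_apply_left]
  simp

theorem cut_pre (f : Perm D) (a : D) : cut f a (f⁻¹ a) = f a := by
  unfold cut
  rw [Perm.mul_apply, swap_apply_right]

theorem cut_other (f : Perm D) (a x : D) (h1 : x ≠ a) (h2 : x ≠ f⁻¹ a) : cut f a x = f x := by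
  unfold cut
  rw [Perm.mul_apply, swap_apply_of_ne_of_ne h1 h2]

theorem cut_cl (f : Perm D) (a : D) (h : f a ≠ a) : cl (cut f a) a ≠ cl (cut f a) (f⁻¹ a) := by
  intro hc
  let F : Quot (fun x y => y = cut f a x) → Prop := Quot.lift (fun x => x = a) (by
    intro x y hxy
    subst hxy
    apply propext
    constructor
    · intro h; rw [h, cut_self]
    · intro h
      apply (cut f a).injective
      rw [h, cut_self])
  have h2 : F (cl (cut f a) a) := rfl
  rw [hc] at h2
  have h3 : f⁻¹ a = a := h2
  apply h
  conv_lhs => rw [← h3]
  simp

theorem cyc_cut [Finite D] (f : Perm D) (a : D) (h : f a ≠ a) : cyc f + 1 = cyc (cut f a) := by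
  have := merge_cyc (cut f a) a (f⁻¹ a) (cut_cl f a h)
  rw [← this]
  congr 2
  unfold cut
  rw [mul_assoc, swap_mul_self, mul_one]

theorem gam_cut [Finite D] (f α : Perm D) (a : D) (h : f a ≠ a) : gam (cut f a) α ≤ gam f α := by
  have h1 := cyc_cut f a h
  have hback : α * cut f a * swap a (f⁻¹ a) = α * f := by
    unfold cut
    rw [mul_assoc, mul_assoc, swap_mul_self, mul_one]
  have hfwd : α * cut f a = α * f * swap a (f⁻¹ a) := by
    unfold cut; rw [mul_assoc]
  unfold gam
  by_cases hc : cl (α * cut f a) a = cl (α * cut f a) (f⁻¹ a)
  · have hac : cls (cut f a) α a = cls (cut f a) α (f⁻¹ a) := by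
      let F : Quot (fun x y => y = (α * cut f a) x) → Quot (rel (cut f a) α) :=
        Quot.lift (fun x => cls (cut f a) α x) (by
          intro x y hxy
          subst hxy
          rw [Perm.mul_apply, cls_a, cls_f])
      exact congrArg F hc
    have h2 : orb (cut f a) α ≤ orb f α := by
      apply orb_le_of
      intro x
      by_cases hxa : x = a
      · subst hxa
        rw [← cut_pre, cls_f, hac]
      · by_cases hxc : x = f⁻¹ a
        · subst hxc
          have : f (f⁻¹ a) = a := by simp
          rw [this, hac]
        · rw [← cut_other f a x hxa hxc, cls_f]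
    have h3 := cyc_le_swap (α * f) a (f⁻¹ a)
    rw [← hfwd] at h3
    omega
  · have h2 := merge_cyc _ _ _ hc
    rw [hback] at h2
    have h3 := orb_le_succ (cut f a) α a (f⁻¹ a)
    have h4 : cut f a * swap a (f⁻¹ a) = f := by
      unfold cut; rw [mul_assoc, swap_mul_self, mul_one]
    rw [h4] at h3
    omega

/-- isolating a set of darts -/
theorem isolate [Finite D] (φ α : Perm D) (P : Finset D) :
    ∃ g : Perm D, (∀ y ∈ P, g y = y) ∧ (∀ x, cl φ (g x) = cl φ x) ∧
      (∀ x z, x ∉ P → z ∉ P → cl φ x = cl φ z → cl g x = cl g z) ∧ gam g α ≤ gam φ α := by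
  induction P using Finset.induction_on with
  | empty =>
    exact ⟨φ, by simp, fun x => cl_apply φ x, fun x z _ _ h => h, le_rfl⟩
  | insert y P hy ih =>
    obtain ⟨f, h1, h2, h3, h4⟩ := ih
    by_cases hf : f y = y
    · refine ⟨f, ?_, h2, ?_, h4⟩
      · intro z hz
        rw [Finset.mem_insert] at hz
        obtain rfl | hz := hz
        · exact hf
        · exact h1 z hz
      · intro x z hx hz
        rw [Finset.mem_insert, not_or] at hx hz
        exact h3 x z hx.2 hz.2
    · refine ⟨cut f y, ?_, ?_, ?_, (gam_cut f α y hf).trans h4⟩
      · intro z hz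
        rw [Finset.mem_insert] at hz
        obtain rfl | hz := hz
        · exact cut_self f z
        · have hz1 := h1 z hz
          have hzy : z ≠ y := by intro h; subst h; exact hy hz
          rw [cut_other f y z hzy, hz1]
          intro h
          apply hzy
          rw [← hz1, h]; simp
      · intro x
        by_cases hxa : x = y
        · subst hxa; rw [cut_self]
        · by_cases hxc : x = f⁻¹ y
          · subst hxc
            rw [cut_pre, h2, ← h2 (f⁻¹ y)]
            simp
          · rw [cut_other f y x hxa hxc, h2]
      · intro x z hx hz hxz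
        rw [Finset.mem_insert, not_or] at hx hz
        have h5 := h3 x z hx.2 hz.2 hxz
        let K : Quot (fun x y => y = f x) → Quot (fun a b => b = cut f y a) :=
          Quot.lift (fun x => if x = y then cl (cut f y) (f⁻¹ y) else cl (cut f y) x) (by
            intro u w huw
            subst huw
            by_cases hu : u = y
            · subst hu
              rw [if_pos rfl, if_neg hf]
              have h7 := cl_apply (cut f u) (f⁻¹ u)
              rw [cut_pre] at h7
              exact h7.symm
            · rw [if_neg hu]
              by_cases hu2 : u = f⁻¹ y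
              · subst hu2
                have : f (f⁻¹ y) = y := by simp
                rw [this, if_pos rfl]
              · have : f u ≠ y := by
                  intro h; apply hu2; rw [← h]; simp
                rw [if_neg this, ← cut_other f y u hu hu2, cl_apply])
        have h6 : K (cl f x) = K (cl f z) := congrArg K h5
        change (if x = y then cl (cut f y) (f⁻¹ y) else cl (cut f y) x) =
          (if z = y then cl (cut f y) (f⁻¹ y) else cl (cut f y) z) at h6
        rwa [if_neg hx.1, if_neg hz.1] at h6

end Run7.h243.Up
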