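import Pool.Agent.Run7.h243.U.Up1

/-! Number of edges of a simple graph on a surface. -/

namespace Run7.h243.Up

open Run7.B243 Equiv

variable {D : Type}

/-- weights: if every class has weight at least `c` -/
theorem cyc_weight_le [Fintype D] [DecidableEq D] (f : Perm D) (wt : D → ℕ) (T : D → Finset D)
    (hT : ∀ x, ∀ y ∈ T x, cl f y = cl f x) (c : ℕ) (hc : ∀ x, c ≤ ∑ y ∈ T x, wt y) :
    c * cyc f ≤ ∑ x, wt x := by
  classical
  have : Fintype (Quot (fun x y => y = f x)) := Fintype.ofFinite _
  unfold cyc
  rw [Nat.card_eq_fintype_card]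
  rw [← Finset.sum_fiberwise (s := Finset.univ) (g := fun x => cl f x) (f := wt)]
  have : ∀ q : Quot (fun x y => y = f x), c ≤ ∑ x ∈ Finset.univ.filter (fun x => cl f x = q), wt x := by
    intro q
    induction q using Quot.ind with
    | mk x =>
      refine le_trans (hc x) (Finset.sum_le_sum_of_subset ?_)
      intro y hy
      rw [Finset.mem_filter]
      exact ⟨Finset.mem_univ _, hT x y hy⟩
  calc _ = ∑ _q : Quot (fun x y => y = f x), c := by
        rw [Finset.sum_const, Finset.card_univ, smul_eq_mul, mul_comm]
    _ ≤ _ := Finset.sum_le_sum (fun q _ => this q)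

/-- the darts on components with one edge -/
theorem tiny_le [Fintype D] [DecidableEq D] (g α : Perm D) (hα : ∀ x, α (α x) = x) (Tn : Finset D)
    (hTn : ∀ x, x ∈ Tn ↔ g x = x ∧ g (α x) = α x) (x0 : D) (hx0 : x0 ∉ Tn) :
    Tn.card + 2 ≤ 2 * orb g α := by
  classical
  have : Fintype (Quot (rel g α)) := Fintype.ofFinite _
  unfold orb
  rw [Nat.card_eq_fintype_card]
  let F : Quot (rel g α) → Finset D := Quot.lift (fun z => if z ∈ Tn then {z, α z} else ∅) (by
    have hstep : ∀ z, (z ∈ Tn ↔ α z ∈ Tn) := by
      intro z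
      rw [hTn, hTn, hα]
      tauto
    rintro a b (h | h)
    · subst h
      by_cases ha : a ∈ Tn
      · have := (hTn a).mp ha
        rw [this.1]
      · have hb : g a ∉ Tn := by
          intro hb
          have h1 := (hTn (g a)).mp hb
          have h2 : g a = a := g.injective h1.1
          rw [h2] at hb
          exact ha hb
        rw [if_neg ha, if_neg hb]
    · subst h
      by_cases ha : a ∈ Tn
      · rw [if_pos ha, if_pos ((hstep a).mp ha), hα]
        exact Finset.pair_comm _ _
      · rw [if_neg ha, if_neg (fun h => ha ((hstep a).mpr h))])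
  have hF : ∀ x, F (cls g α x) = if x ∈ Tn then {x, α x} else ∅ := fun x => rfl
  have hsum : Tn.card ≤ ∑ q : Quot (rel g α), (F q).card := by
    refine le_trans (Finset.card_le_card ?_) Finset.card_biUnion_le
    intro x hx
    rw [Finset.mem_biUnion]
    refine ⟨cls g α x, Finset.mem_univ _, ?_⟩
    rw [hF, if_pos hx]
    exact Finset.mem_insert_self _ _
  have h0 : (F (cls g α x0)).card = 0 := by
    rw [hF, if_neg hx0]; rfl
  have h2 : ∀ q, (F q).card ≤ 2 := by
    intro q
    induction q using Quot.ind with
    | mk x =>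
      change (F (cls g α x)).card ≤ 2
      rw [hF]
      split
      · exact Finset.card_le_two
      · simp
  rw [← Finset.add_sum_erase _ _ (Finset.mem_univ (cls g α x0)), h0, zero_add] at hsum
  have h3 : ∑ q ∈ Finset.univ.erase (cls g α x0), (F q).card ≤
      ∑ _q ∈ Finset.univ.erase (cls g α x0), 2 := Finset.sum_le_sum (fun q _ => h2 q)
  rw [Finset.sum_const, smul_eq_mul, Finset.card_erase_of_mem (Finset.mem_univ _),
    Finset.card_univ] at h3
  have h4 : 0 < Fintype.card (Quot (rel g α)) := Fintype.card_pos_iff.mpr ⟨cls g α x0⟩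
  omega

/-- The number of darts of a simple graph, with vertices labelled in `S`, in a rotation system -/
theorem edge_bound [Fintype D] [DecidableEq D] {X : Type} (φ α : Perm D)
    (hα : ∀ x, α (α x) = x) (hα' : ∀ x, α x ≠ x) (hconn : orb φ α ≤ 1)
    (v : D → X) (hv : ∀ x, v (φ x) = v x) (hv' : ∀ x z, v x = v z → cl φ x = cl φ z)
    (E : Finset D) (hE : ∀ x, x ∈ E ↔ α x ∈ E) (S : Finset X) (hS : ∀ x ∈ E, v x ∈ S)
    (hloop : ∀ x ∈ E, v x ≠ v (α x))
    (hsimp : ∀ x ∈ E, ∀ z ∈ E, v x = v z → v (α x) = v (α z) → x = z)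
    (g : ℕ) (hg : 1 ≤ g)
    (hgen : (cyc (α * φ) : ℤ) - cyc α + cyc φ = 2 - 2 * (g : ℤ)) :
    (E.card : ℤ) ≤ 6 * S.card + 12 * ((g : ℤ) - 1) := by
  classical
  obtain ⟨f, h1, h2, h3, h4⟩ := isolate φ α (Finset.univ \ E)
  have hclv : ∀ x z, cl φ x = cl φ z → v x = v z := by
    intro x z h
    let K : Quot (fun x y => y = φ x) → X := Quot.lift v (by
      intro a b hab; subst hab; exact (hv a).symm)
    exact congrArg K h
  have hout : ∀ y, y ∉ E → f y = y := fun y hy => h1 y (by simp [hy])
  have hin : ∀ y, y ∈ E → f y ∈ E := by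
    intro y hy
    by_contra h
    have h5 := hout (f y) h
    have h6 := f.injective h5
    rw [h6] at h
    exact h hy
  have hvf : ∀ x, v (f x) = v x := fun x => hclv _ _ (h2 x)
  have h3' : ∀ x z, x ∈ E → z ∈ E → v x = v z → cl f x = cl f z := by
    intro x z hx hz h
    exact h3 x z (by simp [hx]) (by simp [hz]) (hv' x z h)
  -- the faces
  let Tn : Finset D := Finset.univ.filter (fun x => f x = x ∧ f (α x) = α x)
  have hTn : ∀ x, x ∈ Tn ↔ f x = x ∧ f (α x) = α x := by intro x; simp [Tn]
  have hψ1 : ∀ x, (α * f) x ≠ x := by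
    intro x hx
    rw [Perm.mul_apply] at hx
    by_cases hxE : x ∈ E
    · apply hloop x hxE
      have : f x = α x := by rw [← hα (f x), hx]
      rw [← this, hvf]
    · rw [hout x hxE] at hx
      exact hα' x hx
  have hψ2 : ∀ x, x ∉ Tn → (α * f) ((α * f) x) ≠ x := by
    intro x hxT hx
    apply hxT
    rw [Perm.mul_apply, Perm.mul_apply] at hx
    have hw : f (α (f x)) = α x := by rw [← hα (f (α (f x))), hx]
    by_cases hxE : x ∈ E
    · have hz := hin x hxE
      have e1 : v (f x) = v x := hvf x
      have e2 : v (α (f x)) = v (α x) := by rw [← hvf (α (f x)), hw]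
      have e3 := hsimp _ hz _ hxE e1 e2
      rw [hTn]
      rw [e3] at hw
      exact ⟨e3, hw⟩
    · rw [hTn]
      have := hout x hxE
      have h5 : α x ∉ E := fun h => hxE ((hE x).mpr h)
      exact ⟨this, hout _ h5⟩
  have hfaces : 6 * cyc (α * f) ≤ 2 * Fintype.card D + Tn.card := by
    have := cyc_weight_le (α * f) (fun x => if x ∈ Tn then 3 else 2)
      (fun x => if x ∈ Tn then {x, (α * f) x} else {x, (α * f) x, (α * f) ((α * f) x)})
      (by
        intro x y hy
        by_cases hx : x ∈ Tn
        · simp only [if_pos hx, Finset.mem_insert, Finset.mem_singleton] at hy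
          obtain rfl | rfl := hy
          · rfl
          · exact cl_apply _ _
        · simp only [if_neg hx, Finset.mem_insert, Finset.mem_singleton] at hy
          obtain rfl | rfl | rfl := hy
          · rfl
          · exact cl_apply _ _
          · rw [cl_apply, cl_apply]) 6 (by
        intro x
        by_cases hx : x ∈ Tn
        · simp only [if_pos hx]
          have hx2 := (hTn x).mp hx
          have hψx : (α * f) x = α x := by rw [Perm.mul_apply, hx2.1]
          have hαT : α x ∈ Tn := by rw [hTn, hα]; exact ⟨hx2.2, hx2.1⟩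
          rw [hψx, Finset.sum_pair (hα' x).symm, if_pos hx, if_pos hαT]
        · simp only [if_neg hx]
          have n1 := hψ1 x
          have n2 := hψ2 x hx
          have n3 := hψ1 ((α * f) x)
          have hcard : ({x, (α * f) x, (α * f) ((α * f) x)} : Finset D).card = 3 :=
            Finset.card_eq_three.mpr ⟨x, (α * f) x, (α * f) ((α * f) x), n1.symm, n2.symm, n3.symm, rfl⟩
          calc 6 = ∑ _y ∈ ({x, (α * f) x, (α * f) ((α * f) x)} : Finset D), 2 := by
                rw [Finset.sum_const, hcard]; rfl
            _ ≤ _ := Finset.sum_le_sum (by intro y _; split <;> norm_num))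
    refine this.trans (le_of_eq ?_)
    have h5 : ∀ x : D, (if x ∈ Tn then 3 else 2) = 2 + (if x ∈ Tn then 1 else 0) := by
      intro x; split <;> rfl
    simp only [h5]
    rw [Finset.sum_add_distrib, Finset.sum_const, Finset.card_univ, smul_eq_mul,
      Finset.sum_ite_mem, Finset.univ_inter, Finset.sum_const, smul_eq_mul, mul_one, mul_comm]
  have hverts : cyc f ≤ (Finset.univ \ E).card + S.card := by
    unfold cyc
    have : Fintype (Quot (fun x y => y = f x)) := Fintype.ofFinite _
    rw [Nat.card_eq_fintype_card, ← Fintype.card_coe, ← Fintype.card_coe, ← Fintype.card_sum]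
    have hrep : ∀ q : Quot (fun x y => y = f x), cl f q.out = q := fun q => Quot.out_eq q
    refine Fintype.card_le_of_injective
      (fun q => if h : q.out ∈ E then Sum.inr ⟨v q.out, hS _ h⟩ else Sum.inl ⟨q.out, by simp [h]⟩) ?_
    intro q q' h
    by_cases hq : q.out ∈ E
    · by_cases hq' : q'.out ∈ E
      · simp only [dif_pos hq, dif_pos hq', Sum.inr.injEq, Subtype.mk.injEq] at h
        rw [← hrep q, ← hrep q']
        exact h3' _ _ hq hq' h
      · simp only [dif_pos hq, dif_neg hq'] at h
        exact absurd h (by simp)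
    · by_cases hq' : q'.out ∈ E
      · simp only [dif_neg hq, dif_pos hq'] at h
        exact absurd h (by simp)
      · simp only [dif_neg hq, dif_neg hq', Sum.inl.injEq, Subtype.mk.injEq] at h
        rw [← hrep q, ← hrep q', h]
  have hcardE : (Finset.univ \ E).card + E.card = Fintype.card D := by
    rw [Finset.card_sdiff_add_card_eq_card (Finset.subset_univ E), Finset.card_univ]
  have hinv := cyc_invol α hα hα'
  have hPT : (Finset.univ \ E).card ≤ Tn.card := by
    apply Finset.card_le_card
    intro x hx
    rw [Finset.mem_sdiff] at hx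
    rw [hTn]
    exact ⟨hout x hx.2, hout _ (fun h => hx.2 ((hE x).mpr h))⟩
  by_cases hall : ∀ x, x ∈ Tn
  · -- all darts are fixed
    have hinj : E.card ≤ S.card := by
      refine Finset.card_le_card_of_injOn v hS ?_
      intro x hx z hz h
      have h5 := h3' x z hx hz h
      have hf1 : f = 1 := by
        ext x
        exact ((hTn x).mp (hall x)).1
      let K : Quot (fun x y => y = f x) → D := Quot.lift id (by
        intro a b hab
        rw [hab, hf1]
        rfl)
      exact congrArg K h5
    omega
  · push Not at hall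
    obtain ⟨x0, hx0⟩ := hall
    have h5 := tiny_le f α hα Tn hTn x0 hx0
    unfold gam at h4
    omega

end Run7.h243.Up
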