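import Pool.Agent.Run7.h243.U.Up2
import Pool.Agent.Run7.h243.Base.Hs

/-! Heawood's upper bound. -/

namespace Run7.h243.Up

open Run7.B243 Equiv

theorem quot_equiv {Fl : Type} (c : Fl → Bool) (s t : Fl → Fl) (hs : ∀ x, s (s x) = x)
    (ht : ∀ x, t (t x) = x) (cs : ∀ x, c (s x) = !(c x)) (ct : ∀ x, c (t x) = !(c x))
    (r : Fl → Fl → Prop) (hr : ∀ a b, r a b ↔ b = s a ∨ b = t a)
    (π : Perm {x : Fl // c x = true}) (hπ : ∀ x, (π x).1 = t (s x.1)) :
    ∃ F : Quot r → Quot (fun a b => b = π a), Function.Bijective F ∧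
      ∀ d, F (Quot.mk r d.1) = cl π d := by
  classical
  let F : Quot r → Quot (fun a b => b = π a) := Quot.lift
    (fun x => if h : c x = true then cl π ⟨x, h⟩ else cl π ⟨s x, by rw [cs]; simpa using h⟩) (by
      intro a b hab
      rcases (hr a b).mp hab with h | h
      · subst h
        by_cases ha : c a = true
        · have hb : ¬ c (s a) = true := by rw [cs, ha]; simp
          rw [dif_pos ha, dif_neg hb]
          congr 1
          exact Subtype.ext (hs a).symm
        · have hb : c (s a) = true := by rw [cs]; simpa using ha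
          rw [dif_neg ha, dif_pos hb]
      · subst h
        by_cases ha : c a = true
        · have hb : ¬ c (t a) = true := by rw [ct, ha]; simp
          rw [dif_pos ha, dif_neg hb, ← cl_apply π ⟨s (t a), _⟩]
          congr 1
          apply Subtype.ext
          rw [hπ]
          show a = t (s (s (t a)))
          rw [hs, ht]
        · have hb : c (t a) = true := by rw [ct]; simpa using ha
          rw [dif_neg ha, dif_pos hb, ← cl_apply π ⟨s a, _⟩]
          congr 1
          apply Subtype.ext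
          rw [hπ]
          show t (s (s a)) = t a
          rw [hs])
  let G : Quot (fun a b => b = π a) → Quot r := Quot.lift (fun d => Quot.mk r d.1) (by
    intro a b hab
    subst hab
    rw [hπ]
    exact (Quot.sound ((hr _ _).mpr (Or.inl rfl))).trans (Quot.sound ((hr _ _).mpr (Or.inr rfl))))
  have hF : ∀ d : {x : Fl // c x = true}, F (Quot.mk r d.1) = cl π d := by
    intro d
    show (if h : c d.1 = true then cl π ⟨d.1, h⟩ else _) = _
    rw [dif_pos d.2]
  have hGF : ∀ q, G (F q) = q := by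
    intro q
    induction q using Quot.ind with
    | mk x =>
      by_cases hx : c x = true
      · rw [hF ⟨x, hx⟩]; rfl
      · have h1 : Quot.mk r x = Quot.mk r (s x) := Quot.sound ((hr _ _).mpr (Or.inl rfl))
        have h2 : c (s x) = true := by rw [cs]; simpa using hx
        rw [h1, hF ⟨s x, h2⟩]; rfl
  refine ⟨F, ⟨?_, ?_⟩, hF⟩
  · intro q q' h
    rw [← hGF q, h, hGF]
  · intro q
    induction q using Quot.ind with
    | mk d => exact ⟨Quot.mk r d.1, hF d⟩

section

variable (M : CellMap) (c : M.Flag → Bool)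
  (hc : ∀ x, c (M.r0 x) = !(c x) ∧ c (M.r1 x) = !(c x) ∧ c (M.r2 x) = !(c x))

/-- the rotation of the faces -/
def phi : Perm {x : M.Flag // c x = true} where
  toFun x := ⟨M.r0 (M.r1 x.1), by rw [(hc _).1, (hc _).2.1, x.2]; rfl⟩
  invFun x := ⟨M.r1 (M.r0 x.1), by rw [(hc _).2.1, (hc _).1, x.2]; rfl⟩
  left_inv x := by
    apply Subtype.ext
    show M.r1 (M.r0 (M.r0 (M.r1 x.1))) = x.1
    rw [M.r0_inv, M.r1_inv]
  right_inv x := by
    apply Subtype.ext
    show M.r0 (M.r1 (M.r1 (M.r0 x.1))) = x.1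
    rw [M.r1_inv, M.r0_inv]

theorem alp_aux (x : M.Flag) : M.r2 (M.r0 (M.r2 (M.r0 x))) = x := by
  rw [M.comm, M.r0_inv, M.r2_inv]

/-- the exchange of the sides of an edge -/
def alp : Perm {x : M.Flag // c x = true} where
  toFun x := ⟨M.r2 (M.r0 x.1), by rw [(hc _).2.2, (hc _).1, x.2]; rfl⟩
  invFun x := ⟨M.r2 (M.r0 x.1), by rw [(hc _).2.2, (hc _).1, x.2]; rfl⟩
  left_inv x := Subtype.ext (alp_aux M x.1)
  right_inv x := Subtype.ext (alp_aux M x.1)

theorem alp_inv (x : {x : M.Flag // c x = true}) : alp M c hc (alp M c hc x) = x :=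
  Subtype.ext (alp_aux M x.1)

theorem alp_ne (x : {x : M.Flag // c x = true}) : alp M c hc x ≠ x := by
  intro h
  have h1 : M.r2 (M.r0 x.1) = x.1 := congrArg Subtype.val h
  rw [← M.comm] at h1
  exact M.r02_ne _ h1

theorem orb_one : orb (phi M c hc) (alp M c hc) ≤ 1 := by
  classical
  unfold orb
  have := M.fin
  rw [Finite.card_le_one_iff_subsingleton]
  let K : M.Flag → Quot (rel (phi M c hc) (alp M c hc)) := fun x =>
    if h : c x = true then cls _ _ ⟨x, h⟩ else cls _ _ ⟨M.r0 x, by rw [(hc x).1]; simpa using h⟩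
  have h0 : ∀ x, K (M.r0 x) = K x := by
    intro x
    by_cases hx : c x = true
    · have hb : ¬ c (M.r0 x) = true := by rw [(hc x).1, hx]; simp
      show dite _ _ _ = dite _ _ _
      rw [dif_pos hx, dif_neg hb]
      congr 1
      exact Subtype.ext (M.r0_inv x)
    · have hb : c (M.r0 x) = true := by rw [(hc x).1]; simpa using hx
      show dite _ _ _ = dite _ _ _
      rw [dif_neg hx, dif_pos hb]
  have h1 : ∀ x, K (M.r1 x) = K x := by
    intro x
    by_cases hx : c x = true
    · have hb : ¬ c (M.r1 x) = true := by rw [(hc x).2.1, hx]; simp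
      show dite _ _ _ = dite _ _ _
      rw [dif_pos hx, dif_neg hb, ← cls_f (phi M c hc) (alp M c hc) ⟨x, hx⟩]
      rfl
    · have hb : c (M.r1 x) = true := by rw [(hc x).2.1]; simpa using hx
      show dite _ _ _ = dite _ _ _
      rw [dif_neg hx, dif_pos hb, ← cls_f (phi M c hc) (alp M c hc) ⟨M.r1 x, hb⟩]
      congr 1
      apply Subtype.ext
      show M.r0 (M.r1 (M.r1 x)) = M.r0 x
      rw [M.r1_inv]
  have h2 : ∀ x, K (M.r2 x) = K x := by
    intro x
    by_cases hx : c x = true
    · have hb : ¬ c (M.r2 x) = true := by rw [(hc x).2.2, hx]; simp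
      show dite _ _ _ = dite _ _ _
      rw [dif_pos hx, dif_neg hb, ← cls_a (phi M c hc) (alp M c hc) ⟨x, hx⟩]
      congr 1
      apply Subtype.ext
      show M.r0 (M.r2 x) = M.r2 (M.r0 x)
      rw [M.comm]
    · have hb : c (M.r2 x) = true := by rw [(hc x).2.2]; simpa using hx
      show dite _ _ _ = dite _ _ _
      rw [dif_neg hx, dif_pos hb, ← cls_a (phi M c hc) (alp M c hc) ⟨M.r2 x, hb⟩]
      congr 1
      apply Subtype.ext
      show M.r2 (M.r0 (M.r2 x)) = M.r0 x
      rw [M.comm, M.r2_inv]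
  have hall : ∀ x y, K x = K y := by
    intro x y
    induction M.conn x y with
    | rel a b h =>
      rcases h with h | h | h
      · rw [h, h0]
      · rw [h, h1]
      · rw [h, h2]
    | refl a => rfl
    | symm a b _ ih => exact ih.symm
    | trans a b d _ _ ih1 ih2 => exact ih1.trans ih2
  have hK : ∀ d : {x : M.Flag // c x = true}, K d.1 = cls _ _ d := by
    intro d
    show dite _ _ _ = _
    rw [dif_pos d.2]
  refine ⟨fun q q' => ?_⟩
  induction q using Quot.ind with
  | mk a =>
    induction q' using Quot.ind with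
    | mk b =>
      have := hall a.1 b.1
      rw [hK, hK] at this
      exact this

theorem euler_eq : M.euler = (cyc (alp M c hc * phi M c hc) : ℤ) - cyc (alp M c hc) +
    cyc (phi M c hc) := by
  unfold CellMap.euler
  obtain ⟨F1, b1, _⟩ := quot_equiv c M.r1 M.r2 M.r1_inv M.r2_inv (fun x => (hc x).2.1)
    (fun x => (hc x).2.2) (fun a b : M.Flag => b = M.r1 a ∨ b = M.r2 a) (fun a b => Iff.rfl)
    (alp M c hc * phi M c hc) (by
      intro x
      show M.r2 (M.r0 (M.r0 (M.r1 x.1))) = _
      rw [M.r0_inv])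
  obtain ⟨F2, b2, _⟩ := quot_equiv c M.r0 M.r2 M.r0_inv M.r2_inv (fun x => (hc x).1)
    (fun x => (hc x).2.2) (fun a b : M.Flag => b = M.r0 a ∨ b = M.r2 a) (fun a b => Iff.rfl)
    (alp M c hc) (fun x => rfl)
  obtain ⟨F3, b3, _⟩ := quot_equiv c M.r1 M.r0 M.r1_inv M.r0_inv (fun x => (hc x).2.1)
    (fun x => (hc x).1) (fun a b : M.Flag => b = M.r0 a ∨ b = M.r1 a) (fun a b => or_comm)
    (phi M c hc) (fun x => rfl)
  have e1 : Nat.card M.Vertex = cyc (alp M c hc * phi M c hc) :=
    Nat.card_eq_of_bijective F1 b1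
  have e2 : Nat.card M.Edge = cyc (alp M c hc) := Nat.card_eq_of_bijective F2 b2
  have e3 : Nat.card M.Face = cyc (phi M c hc) := Nat.card_eq_of_bijective F3 b3
  rw [e1, e2, e3]

theorem face_cl (x z : {x : M.Flag // c x = true}) (h : M.face x.1 = M.face z.1) :
    cl (phi M c hc) x = cl (phi M c hc) z := by
  obtain ⟨F3, b3, h3⟩ := quot_equiv c M.r1 M.r0 M.r1_inv M.r0_inv (fun x => (hc x).2.1)
    (fun x => (hc x).1) (fun a b : M.Flag => b = M.r0 a ∨ b = M.r1 a) (fun a b => or_comm)
    (phi M c hc) (fun x => rfl)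
  rw [← h3, ← h3]
  exact congrArg F3 h

theorem face_r0 (x : M.Flag) : M.face (M.r0 x) = M.face x :=
  (Quot.sound (r := fun a b : M.Flag => b = M.r0 a ∨ b = M.r1 a) (Or.inl rfl)).symm

theorem face_r1 (x : M.Flag) : M.face (M.r1 x) = M.face x :=
  (Quot.sound (r := fun a b : M.Flag => b = M.r0 a ∨ b = M.r1 a) (Or.inr rfl)).symm

end

end Run7.h243.Up
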