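import Pool.Agent.Run7.h243.U.Up3

/-! Heawood's upper bound: colouring. -/

namespace Run7.h243.Up

open Run7.B243 Equiv

theorem pairs_bound {D X C : Type} [Fintype D] [DecidableEq D] [DecidableEq C] (φ α : Perm D)
    (hα : ∀ x, α (α x) = x) (hα' : ∀ x, α x ≠ x) (hconn : orb φ α ≤ 1)
    (v : D → X) (hv : ∀ x, v (φ x) = v x) (hv' : ∀ x z, v x = v z → cl φ x = cl φ z)
    (country : X → C) (W : Finset C) (S : Finset X) (hS : ∀ f, country f ∈ W → f ∈ S)
    (Pr : Finset (C × C)) (hPr : ∀ p ∈ Pr, p.1 ∈ W ∧ p.2 ∈ W ∧ p.1 ≠ p.2 ∧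
      ∃ d, country (v d) = p.1 ∧ country (v (α d)) = p.2)
    (g : ℕ) (hg : 1 ≤ g)
    (hgen : (cyc (α * φ) : ℤ) - cyc α + cyc φ = 2 - 2 * (g : ℤ)) :
    (Pr.card : ℤ) ≤ 6 * S.card + 12 * ((g : ℤ) - 1) := by
  classical
  obtain ⟨e, he⟩ : ∃ e : D → Sym2 C, ∀ d, e d = s(country (v d), country (v (α d))) :=
    ⟨_, fun _ => rfl⟩
  have hR : ∃ R : D → D, (∀ d, e (R d) = e d) ∧ ∀ d d', e d = e d' → R d = R d' := by
    refine ⟨fun d => Set.rangeSplitting e ⟨e d, d, rfl⟩,
      fun d => Set.apply_rangeSplitting e ⟨e d, d, rfl⟩, fun d d' h => ?_⟩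
    have : (⟨e d, d, rfl⟩ : Set.range e) = ⟨e d', d', rfl⟩ := Subtype.ext h
    show Set.rangeSplitting e _ = Set.rangeSplitting e _
    rw [this]
  obtain ⟨R, hR1, hR2⟩ := hR
  have heα : ∀ d, e (α d) = e d := by
    intro d
    rw [he, he, hα]
    exact Sym2.eq_swap
  have hRα : ∀ d, R (α d) = R d := fun d => hR2 _ _ (heα d)
  obtain ⟨E, hEdef⟩ : ∃ E : Finset D, E = Finset.univ.filter (fun d => country (v d) ∈ W ∧
      country (v (α d)) ∈ W ∧ country (v d) ≠ country (v (α d)) ∧ (d = R d ∨ α d = R d)) :=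
    ⟨_, rfl⟩
  have hEm : ∀ d, d ∈ E ↔ (country (v d) ∈ W ∧
      country (v (α d)) ∈ W ∧ country (v d) ≠ country (v (α d)) ∧ (d = R d ∨ α d = R d)) := by
    intro d; rw [hEdef]; simp
  have hEsym : ∀ x, x ∈ E → α x ∈ E := by
    intro x hx
    rw [hEm] at hx ⊢
    obtain ⟨x1, x2, x3, x4⟩ := hx
    rw [hα, hRα]
    exact ⟨x2, x1, x3.symm, x4.symm⟩
  have hb := edge_bound φ α hα hα' hconn v hv hv' E
    (fun x => ⟨hEsym x, fun h => by have := hEsym _ h; rwa [hα] at this⟩) S
    (fun x hx => hS _ ((hEm x).mp hx).1)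
    (fun x hx h => ((hEm x).mp hx).2.2.1 (congrArg country h))
    (by
      intro x hx z hz h1 h2
      have h3 : e x = e z := by rw [he, he, h1, h2]
      have h4 := hR2 _ _ h3
      obtain ⟨x1, x2, x3, x4⟩ := (hEm x).mp hx
      obtain ⟨z1, z2, z3, z4⟩ := (hEm z).mp hz
      rcases x4 with x4 | x4
      · rcases z4 with z4 | z4
        · rw [x4, h4, ← z4]
        · exfalso
          apply x3
          rw [h2, z4, ← h4, ← x4]
      · rcases z4 with z4 | z4
        · exfalso
          apply x3
          rw [x4, h4, ← z4, h1]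
        · apply α.injective
          rw [x4, h4, ← z4]) g hg hgen
  have hcard : Pr.card ≤ E.card := by
    refine le_trans (Finset.card_le_card ?_) (Finset.card_image_le
      (f := fun d => (country (v d), country (v (α d)))) (s := E))
    intro p hp
    obtain ⟨p1, p2, p3, d, d1, d2⟩ := hPr p hp
    have h1 := hR1 d
    rw [he, he, d1, d2] at h1
    rw [Finset.mem_image]
    rcases Sym2.eq_iff.mp h1 with ⟨h2, h3⟩ | ⟨h2, h3⟩
    · refine ⟨R d, ?_, Prod.ext h2 h3⟩
      rw [hEm]
      refine ⟨by rw [h2]; exact p1, by rw [h3]; exact p2, by rw [h2, h3]; exact p3, Or.inl ?_⟩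
      exact (hR2 _ _ (hR1 d)).symm
    · refine ⟨α (R d), ?_, Prod.ext h3 (by show country (v (α (α (R d)))) = _; rw [hα]; exact h2)⟩
      rw [hEm, hα, h2, h3]
      refine ⟨p1, p2, p3, Or.inr ?_⟩
      rw [hRα]
      exact (hR2 _ _ (hR1 d)).symm
  have : (Pr.card : ℤ) ≤ E.card := by exact_mod_cast hcard
  linarith

theorem colour_deg {C : Type} [DecidableEq C] (adj : C → C → Prop) [DecidableRel adj]
    (hsymm : ∀ a b, adj a b → adj b a) (hirr : ∀ a, ¬ adj a a) (n : ℕ) (hn : 0 < n)
    (h : ∀ W : Finset C, W.Nonempty → ∃ a ∈ W, (W.filter (fun b => adj a b)).card < n) :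
    ∀ (k : ℕ) (W : Finset C), W.card = k →
      ∃ col : C → Fin n, ∀ a ∈ W, ∀ b ∈ W, adj a b → col a ≠ col b := by
  intro k
  induction k with
  | zero =>
    intro W hW
    rw [Finset.card_eq_zero] at hW
    subst hW
    exact ⟨fun _ => ⟨0, hn⟩, by simp⟩
  | succ k ih =>
    intro W hW
    obtain ⟨a, ha, hdeg⟩ := h W (Finset.card_pos.mp (by omega))
    obtain ⟨col, hcol⟩ := ih (W.erase a) (by rw [Finset.card_erase_of_mem ha, hW]; rfl)
    obtain ⟨i, hi⟩ : ∃ i : Fin n, i ∉ (W.filter (fun b => adj a b)).image col := by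
      by_contra hcon
      push Not at hcon
      have h1 : (Finset.univ : Finset (Fin n)) ⊆ (W.filter (fun b => adj a b)).image col :=
        fun i _ => hcon i
      have h2 := (Finset.card_le_card h1).trans Finset.card_image_le
      rw [Finset.card_univ, Fintype.card_fin] at h2
      omega
    have hi' : ∀ b ∈ W, adj a b → col b ≠ i := by
      intro b hb hab h
      apply hi
      rw [Finset.mem_image]
      exact ⟨b, by rw [Finset.mem_filter]; exact ⟨hb, hab⟩, h⟩
    refine ⟨fun x => if x = a then i else col x, ?_⟩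
    intro x hx y hy hxy
    by_cases hxa : x = a
    · subst hxa
      have hyx : y ≠ x := by intro h; subst h; exact hirr y hxy
      simp only [if_neg hyx]
      exact (hi' y hy hxy).symm
    · by_cases hya : y = a
      · subst hya
        simp only [if_neg hxa]
        exact hi' x hx (hsymm _ _ hxy)
      · simp only [if_neg hxa, if_neg hya]
        exact hcol x (Finset.mem_erase.mpr ⟨hxa, hx⟩) y (Finset.mem_erase.mpr ⟨hya, hy⟩) hxy

/-- Heawood's upper bound for maps with at most `m` parts in each country -/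
theorem colourable (g m n : ℕ) (hg : 1 ≤ g) (hn : 0 < n)
    (hnm : ((n : ℤ) + 1) * (6 * m - n) < 6 * (2 - 2 * (g : ℤ)))
    (M : CellMap) (hM : M.On (Surface.S g)) {C : Type} (country : M.Face → C)
    (hcount : ∀ c : C, Nat.card {f : M.Face // country f = c} ≤ m) :
    ∃ col : C → Fin n, IsColouring M country col := by
  classical
  obtain ⟨hor, heul⟩ := hM
  obtain ⟨c, hc⟩ := hor.mpr trivial
  have := M.fin
  have : Finite M.Face := Finite.of_surjective (Quot.mk _) Quot.mk_surjective
  have : Fintype M.Face := Fintype.ofFinite _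
  have : Fintype {x : M.Flag // c x = true} := Fintype.ofFinite _
  obtain ⟨adj, hadj⟩ : ∃ adj : C → C → Prop, ∀ a b, adj a b ↔ (a ≠ b ∧
      ∃ x, country (M.face x) = a ∧ country (M.face (M.r2 x)) = b) := ⟨_, fun _ _ => Iff.rfl⟩
  have hsymm : ∀ a b, adj a b → adj b a := by
    intro a b h
    rw [hadj] at h ⊢
    obtain ⟨h1, x, h2, h3⟩ := h
    exact ⟨h1.symm, M.r2 x, h3, by rw [M.r2_inv]; exact h2⟩
  have hirr : ∀ a, ¬ adj a a := by
    intro a h
    rw [hadj] at h
    exact h.1 rfl
  have hdeg : ∀ W : Finset C, W.Nonempty → ∃ a ∈ W, (W.filter (fun b => adj a b)).card < n := by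
    intro W hW
    by_contra hcon
    push Not at hcon
    obtain ⟨a0, ha0⟩ := hW
    -- the number of faces in `W`
    obtain ⟨S, hSdef⟩ : ∃ S : Finset M.Face, S = Finset.univ.filter (fun f => country f ∈ W) :=
      ⟨_, rfl⟩
    have hScard : S.card ≤ W.card * m := by
      have h1 : S.card = ∑ a ∈ W, (S.filter (fun f => country f = a)).card := by
        apply Finset.card_eq_sum_card_fiberwise
        intro f hf
        rw [hSdef] at hf
        simpa using hf
      rw [h1, ← smul_eq_mul]
      apply Finset.sum_le_card_nsmul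
      intro a _
      have h2 := hcount a
      rw [Nat.card_eq_fintype_card, Fintype.card_subtype] at h2
      refine le_trans (Finset.card_le_card ?_) h2
      intro f hf
      rw [Finset.mem_filter] at hf ⊢
      exact ⟨Finset.mem_univ _, hf.2⟩
    have hb := pairs_bound (phi M c hc) (alp M c hc) (alp_inv M c hc) (alp_ne M c hc)
      (orb_one M c hc) (fun x => M.face x.1)
      (by
        intro x
        show M.face (M.r0 (M.r1 x.1)) = _
        rw [face_r0, face_r1]) (face_cl M c hc) country W S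
      (by intro f hf; rw [hSdef]; simpa using hf)
      ((W ×ˢ W).filter (fun p => adj p.1 p.2))
      (by
        intro p hp
        rw [Finset.mem_filter, Finset.mem_product] at hp
        obtain ⟨⟨h1, h2⟩, h3⟩ := hp
        rw [hadj] at h3
        obtain ⟨h3, x, h4, h5⟩ := h3
        refine ⟨h1, h2, h3, ?_⟩
        by_cases hx : c x = true
        · refine ⟨⟨x, hx⟩, h4, ?_⟩
          show country (M.face (M.r2 (M.r0 x))) = _
          rw [← M.comm, face_r0]
          exact h5
        · refine ⟨⟨M.r0 x, by rw [(hc x).1]; simpa using hx⟩, ?_, ?_⟩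
          · show country (M.face (M.r0 x)) = _
            rw [face_r0]; exact h4
          · show country (M.face (M.r2 (M.r0 (M.r0 x)))) = _
            rw [M.r0_inv]; exact h5) g hg
      (by
        have := euler_eq M c hc
        rw [heul] at this
        simpa [Surface.euler] using this.symm)
    have hpairs : W.card * n ≤ ((W ×ˢ W).filter (fun p => adj p.1 p.2)).card := by
      rw [Finset.card_filter, Finset.sum_product, ← smul_eq_mul]
      apply Finset.card_nsmul_le_sum
      intro a ha
      have := hcon a ha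
      rw [Finset.card_filter] at this
      exact this
    have hk : n + 1 ≤ W.card := by
      have h1 := hcon a0 ha0
      have h2 : W.filter (fun b => adj a0 b) ⊆ W.erase a0 := by
        intro b hb
        rw [Finset.mem_filter] at hb
        rw [Finset.mem_erase]
        refine ⟨?_, hb.1⟩
        intro h
        rw [h] at hb
        exact hirr _ hb.2
      have h3 := Finset.card_le_card h2
      rw [Finset.card_erase_of_mem ha0] at h3
      have h4 : 0 < W.card := Finset.card_pos.mpr ⟨a0, ha0⟩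
      omega
    obtain ⟨k, hkdef⟩ : ∃ k : ℤ, k = W.card := ⟨_, rfl⟩
    have e1 : (W.card : ℤ) * n ≤ ((W ×ˢ W).filter (fun p => adj p.1 p.2)).card := by
      exact_mod_cast hpairs
    have e2 : (S.card : ℤ) ≤ W.card * m := by exact_mod_cast hScard
    have e3 : (n : ℤ) + 1 ≤ W.card := by exact_mod_cast hk
    rw [← hkdef] at e1 e2 e3
    have e4 : k * n ≤ 6 * (k * m) + 12 * ((g : ℤ) - 1) := by linarith
    have hg' : (1 : ℤ) ≤ g := by exact_mod_cast hg
    have e5 : 6 * (m : ℤ) - n < 0 := by
      by_contra hcc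
      push Not at hcc
      have : 0 ≤ ((n : ℤ) + 1) * (6 * m - n) := mul_nonneg (by positivity) hcc
      linarith
    nlinarith
  have hfinC : ∀ x, country (M.face x) ∈ (Finset.univ.image country) := by
    intro x
    exact Finset.mem_image_of_mem _ (Finset.mem_univ _)
  obtain ⟨col, hcol⟩ := colour_deg adj hsymm hirr n hn hdeg _ (Finset.univ.image country) rfl
  refine ⟨col, ?_⟩
  intro x hx
  exact hcol _ (hfinC x) _ (hfinC _) ((hadj _ _).mpr ⟨hx, x, rfl, rfl⟩)

end Run7.h243.Up
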